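import Pool.Agent.Helper61.QS.GoalsH

/-!
# Project QS, packet OD4: differentiability of the solutions of a linear ODE in a parameter
-/

set_option autoImplicit false

open Set MeasureTheory intervalIntegral

namespace Pool.Agent.Helper88.QS

open Pool.Agent.Helper61.QS

theorem goalOD4 (h2 : G_OD2) (h3 : G_OD3) : G_OD4 := by
  intro n c hc hskew U hU0 hU
  have hcc : Continuous c := hc.continuous
  have hUc : Continuous (fun z : ℝ × ℝ => U z.1 z.2) := h3 ℝ n c hcc hskew U hU0 hU
  have hun : ∀ l t, U l t ∈ unitary (En n) := fun l =>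
    (h2 n (fun t => c (l, t)) (U l) (fun t => hskew _) (hU0 l) (hU l)).1
  have hUs : ∀ l t, U l t * star (U l t) = 1 := fun l t => (Unitary.mem_iff.1 (hun l t)).2
  have hsU : ∀ l t, star (U l t) * U l t = 1 := fun l t => (Unitary.mem_iff.1 (hun l t)).1
  set c' : ℝ × ℝ → En n := fun z => fderiv ℝ c z (1, 0) with hc'
  have hc'c : Continuous c' :=
    (hc.continuous_fderiv (by norm_num)).clm_apply continuous_const
  have hU1 : ∀ l, Continuous (U l) := fun l =>
    continuous_iff_continuousAt.2 fun t => (hU l t).continuousAt
  -- the difference quotient as an integral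
  set q : ℝ → ℝ → ℝ → En n := fun l x τ => ∫ s in (0 : ℝ)..1, c' (l + s * (x - l), τ) with hq
  have hqc : ∀ l, Continuous (fun z : ℝ × ℝ => q l z.1 z.2) := by
    intro l
    simp only [hq]
    refine intervalIntegral.continuous_parametric_intervalIntegral_of_continuous' ?_ _ _
    refine hc'c.comp ?_
    fun_prop
  have hqd : ∀ l x τ, (x - l) • q l x τ = c (x, τ) - c (l, τ) := by
    intro l x τ
    have hd : ∀ s : ℝ, HasDerivAt (fun s : ℝ => c (l + s * (x - l), τ))
        ((x - l) • c' (l + s * (x - l), τ)) s := by
      intro s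
      have h4 : HasDerivAt (fun s : ℝ => ((l + s * (x - l), τ) : ℝ × ℝ)) ((x - l), 0) s := by
        refine HasDerivAt.prodMk ?_ (hasDerivAt_const _ _)
        simpa using ((hasDerivAt_id s).mul_const (x - l)).const_add l
      have h5 : HasFDerivAt c (fderiv ℝ c (l + s * (x - l), τ)) (l + s * (x - l), τ) :=
        ((hc.differentiable (by norm_num)) _).hasFDerivAt
      have h6 := h5.comp_hasDerivAt s h4
      have h7 : fderiv ℝ c (l + s * (x - l), τ) ((x - l), 0)
          = (x - l) • c' (l + s * (x - l), τ) := by
        simp only [hc']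
        rw [← map_smul]
        congr 1
        simp
      rw [h7] at h6
      exact h6
    have h8 : Continuous (fun s : ℝ => (x - l) • c' (l + s * (x - l), τ)) := by
      have h10 : Continuous (fun s : ℝ => c' (l + s * (x - l), τ)) :=
        hc'c.comp (by fun_prop : Continuous fun s : ℝ => ((l + s * (x - l), τ) : ℝ × ℝ))
      exact (continuous_const_smul (x - l)).comp h10
    have h9 := intervalIntegral.integral_eq_sub_of_hasDerivAt (a := 0) (b := 1)
      (fun s _ => hd s) (h8.intervalIntegrable _ _)
    simp only [hq]
    rw [← intervalIntegral.integral_smul, h9]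
    simp
  have hql : ∀ l τ, q l l τ = c' (l, τ) := by
    intro l τ
    simp [hq]
  set J : ℝ → ℝ → ℝ → En n := fun l x t =>
    ∫ τ in (0 : ℝ)..t, star (U l τ) * q l x τ * U x τ with hJ
  have hJi : ∀ l x, Continuous (fun τ => star (U l τ) * q l x τ * U x τ) := by
    intro l x
    refine Continuous.mul (Continuous.mul (continuous_star.comp (hU1 l)) ?_) (hU1 x)
    exact (hqc l).comp (by fun_prop : Continuous fun τ : ℝ => ((x, τ) : ℝ × ℝ))
  have hJx : ∀ l t, Continuous (fun x => J l x t) := by
    intro l t
    simp only [hJ]
    refine intervalIntegral.continuous_parametric_intervalIntegral_of_continuous' ?_ _ _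
    refine Continuous.mul (Continuous.mul (continuous_star.comp ((hU1 l).comp continuous_snd)) ?_)
      hUc
    exact hqc l
  -- the variation of constants formula
  have hvar : ∀ l x t, U x t - U l t = (x - l) • (U l t * J l x t) := by
    intro l x t
    have hZ : ∀ τ, HasDerivAt (fun τ => star (U l τ) * U x τ)
        ((x - l) • (star (U l τ) * q l x τ * U x τ)) τ := by
      intro τ
      have h4 : HasDerivAt (fun τ => star (U l τ)) (star (c (l, τ) * U l τ)) τ :=
        (hU l τ).star
      have h5 := h4.mul (hU x τ)
      have h6 : star (c (l, τ) * U l τ) * U x τ + star (U l τ) * (c (x, τ) * U x τ)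
          = (x - l) • (star (U l τ) * q l x τ * U x τ) := by
        rw [star_mul, hskew, ← smul_mul_assoc, ← mul_smul_comm, hqd]
        noncomm_ring
      rw [h6] at h5
      exact h5
    have h7 := intervalIntegral.integral_eq_sub_of_hasDerivAt (a := 0) (b := t)
      (fun τ _ => hZ τ) (((hJi l x).const_smul (x - l)).intervalIntegrable _ _)
    rw [intervalIntegral.integral_smul, hU0, hU0, star_one, mul_one] at h7
    have h8 : (x - l) • (U l t * J l x t) = U l t * ((x - l) • J l x t) :=
      (mul_smul_comm _ _ _).symm
    rw [h8]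
    simp only [hJ]
    rw [h7, mul_sub, ← mul_assoc, hUs, one_mul, mul_one]
  refine ⟨fun l t => U l t * J l l t, ?_, ?_, ?_⟩
  · intro l t
    rw [hasDerivAt_iff_tendsto_slope]
    have h4 : Filter.Tendsto (fun x => U l t * J l x t) (nhdsWithin l {l}ᶜ)
        (nhds (U l t * J l l t)) :=
      ((continuous_const.mul (hJx l t)).tendsto l).mono_left nhdsWithin_le_nhds
    refine h4.congr' ?_
    filter_upwards [self_mem_nhdsWithin] with x hx
    have hx' : x - l ≠ 0 := sub_ne_zero.2 hx
    rw [slope_def_module, hvar, smul_smul, inv_mul_cancel₀ hx', one_smul]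
  · intro l
    simp [hJ]
  · intro l t
    have h4 : HasDerivAt (J l l) (star (U l t) * q l l t * U l t) t :=
      intervalIntegral.integral_hasDerivAt_right ((hJi l l).intervalIntegrable _ _)
        ((hJi l l).stronglyMeasurableAtFilter _ _) (hJi l l).continuousAt
    have h5 := (hU l t).mul h4
    have h6 : c (l, t) * U l t * J l l t + U l t * (star (U l t) * q l l t * U l t)
        = c (l, t) * (U l t * J l l t) + fderiv ℝ c (l, t) (1, 0) * U l t := by
      rw [hql, mul_assoc, mul_assoc (star (U l t)), ← mul_assoc (U l t) (star (U l t)), hUs,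
        one_mul]
    rw [h6] at h5
    exact h5

end Pool.Agent.Helper88.QS
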